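import Mathlib
import Pool.Agent.H8.Hfc

set_option autoImplicit false

namespace Pool.Agent.Results.MP_8c4e2c_gt.CH

open Set Filter Topology Function TopologicalSpace Pool.Agent.H8.Mich Pool.Agent.H8.Hfc

theorem result (h : Cardinal.continuum.{0} = Cardinal.aleph 1) :
    ¬ (∀ (X : Type) [TopologicalSpace X] [T35Space X],
      (∀ S : Set {f : X → ℝ // Continuous f},
          ∃ c ⊆ S, c.Countable ∧ S ⊆ closure c) →
      ∃ D : Set {f : X → ℝ // Continuous f}, D.Countable ∧ seqClosure D = Set.univ) := by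
  classical
  intro H
  obtain ⟨r, x, wo, hseg, hd, hx⟩ := build h
  haveI : T35Space (range x) := IsEmbedding.subtypeVal.t35Space
  obtain ⟨D, h1, h2⟩ := H (range x) fun S => by
    choose T h1 h2 h3 using fun n (U : Fin n → countableBasis ℝ) => cov wo hseg (hx n) S
      (fun l => (U l).1) fun l => isOpen_of_mem_countableBasis (U l).2
    refine ⟨⋃ n, ⋃ U, Prod.fst '' T n U, iUnion₂_subset fun n U => ?_,
      countable_iUnion fun n => countable_iUnion fun U => (h1 n U).image _, fun f hf => ?_⟩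
    · rintro _ ⟨e, he, rfl⟩
      exact (h2 n U e he).1
    rw [closure_subtype, mem_closure_iff]
    intro O h4 h5
    obtain ⟨I, u, h6, h7⟩ := isOpen_pi_iff.1 h4 _ h5
    obtain ⟨m, t, ht⟩ := I.finite_toSet.fin_embedding
    choose V h8 h9 h10 using fun l => (isBasis_countableBasis ℝ).exists_subset_of_mem_open
      (h6 (t l) (show t l ∈ (I : Set _) from ht ▸ mem_range_self l)).2
      (h6 (t l) (show t l ∈ (I : Set _) from ht ▸ mem_range_self l)).1
    choose β hβ using fun l => (t l).2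
    have h11 : ∀ l, (⟨x (β l), mem_range_self _⟩ : range x) = t l := fun l => Subtype.ext (hβ l)
    obtain ⟨e, he, h12⟩ := h3 m (fun l => ⟨V l, h8 l⟩) β
      (fun l l' hl => t.injective (by rw [← h11, ← h11]; simp only [hl]))
      ⟨f, hf, fun l => h11 l ▸ h9 l⟩
    refine ⟨e.1.1, h7 fun p hp => ?_, _, mem_iUnion₂.2 ⟨m, _, e, he, rfl⟩, rfl⟩
    obtain ⟨l, rfl⟩ : p ∈ range t := ht ▸ hp
    exact h10 l ((h2 m _ e he).2 l _ (hβ l ▸ h12 l))
  choose T h3 h4 h5 using fun g => cov wo hseg (hx 1) {g} (fun _ => Iio (1 / 2))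
    fun _ => isOpen_Iio
  have hC : (supp (⋃ g ∈ D, Prod.snd '' T g)).Countable :=
    (h1.biUnion fun g _ => (h3 g).image _).biUnion fun B _ =>
      countable_iUnion fun l => (B l).1.countable_toSet
  obtain ⟨α, hα⟩ : ∃ α, α ∉ supp (⋃ g ∈ D, Prod.snd '' T g) := by
    by_contra hc
    push Not at hc
    exact not_countable_univ (hC.mono fun a _ => hc a)
  obtain ⟨g, h6, h7⟩ : (⟨fun p => if p.1 α = true then 1 else 0, (continuous_of_discreteTopology
      (f := fun t : Bool => if t = true then (1 : ℝ) else 0)).comp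
        ((continuous_apply α).comp continuous_subtype_val)⟩ :
      {f : range x → ℝ // Continuous f}) ∈ seqClosure D := h2 ▸ mem_univ _
  have h8 := fun p => tendsto_pi_nhds.1 (tendsto_subtype_rng.1 h7) p
  choose b hb using fun N => hx 1 (⋃ k ≥ N, Prod.snd '' T (g k))
    ((to_countable _).biUnion fun k _ => (h3 _).image _)
  obtain ⟨a, h9, h10⟩ := hd ({α}, {α}) (⋃ N, insert (b N) {c | r c (b N)})
    (countable_iUnion fun N => (hseg _).insert _)
  have h11 := h8 ⟨x a, mem_range_self _⟩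
  simp only [if_pos ((h10 α (by simp)).2 (by simp))] at h11
  obtain ⟨N, hN⟩ := eventually_atTop.1 (h11.eventually (lt_mem_nhds (by norm_num : (1 / 2 : ℝ) < 1)))
  rcases hb N a (by
      rcases trichotomous_of r (b N) a with h | h | h
      exacts [h, absurd (mem_iUnion.2 ⟨N, Or.inl h.symm⟩) h9,
        absurd (mem_iUnion.2 ⟨N, Or.inr h⟩) h9]) 0 (fun _ => cy (∅, ∅))
      (fun _ => Or.inl ⟨_, ⟨by simp, by simp⟩, rfl⟩) with ⟨_, ⟨B, hB, rfl, -⟩, h12⟩ | ⟨q, h12, -, h13⟩
  · obtain ⟨k, hk, e, he, rfl⟩ := mem_iUnion₂.1 hB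
    have := (h4 _ e he).2 0 ⟨_, mem_range_self a⟩ h12
    rw [show e.1 = g k from (h4 _ e he).1] at this
    exact (hN k hk).not_gt this
  have h14 : α ∉ q.1 ∧ α ∉ q.2 := by
    have : supp (⋃ k ≥ N, Prod.snd '' T (g k)) ⊆ supp (⋃ g ∈ D, Prod.snd '' T g) :=
      biUnion_subset_biUnion_left (iUnion₂_subset fun k _ =>
        subset_biUnion_of_mem (u := fun g => Prod.snd '' T g) (h6 k))
    exact ⟨fun h => hα (this (h12.1 h)), fun h => hα (this (h12.2 h))⟩
  obtain ⟨c, -, h15⟩ := hd (insert α q.1, q.2) ∅ countable_empty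
  have h16 := h8 ⟨x c, mem_range_self _⟩
  simp only [if_neg fun h => h14.2 ((h15 α (by simp)).1 h)] at h16
  obtain ⟨k, h17, h18⟩ := ((h16.eventually (gt_mem_nhds (by norm_num : (0 : ℝ) < 1 / 2))).and
    (eventually_ge_atTop N)).exists
  obtain ⟨e, he, h19⟩ := h5 (g k) (fun _ => c) (injective_of_subsingleton _) ⟨_, rfl, fun _ => h17⟩
  exact Set.disjoint_left.1 (h13 _ ⟨e.2, mem_iUnion₂.2 ⟨k, h18, e, he, rfl⟩, rfl,
    fun m hm => absurd (Subsingleton.elim _ _) hm⟩)
    (fun j hj => h15 j (Finset.mem_insert_of_mem hj)) (h19 0)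

end Pool.Agent.Results.MP_8c4e2c_gt.CH
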